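import Pool.Agent.Q75.HM.Stm

set_option autoImplicit false

/-!
# Project HM (helper75), job SY (helper184): symmetric Riemann map of the doubled domain
-/

namespace Pool.Agent.Q184.HM

open Complex Set Metric Filter Topology
open scoped Real ComplexConjugate
open Pool.Agent.Q75.HM

/-- Two Riemann maps with the same derivative at the base point agree. -/
theorem rm_unique {W : Set ℂ} {p : ℂ} {φ ψ : ℂ → ℂ} (hW : IsOpen W) (hp : p ∈ W) (hφ : RM W p φ)
    (hψ : RM W p ψ) (hd : deriv ψ p = deriv φ p) : ∀ z ∈ W, ψ z = φ z := by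
  obtain ⟨h1, h2, h3, h4⟩ := hφ
  obtain ⟨g1, g2, g3, g4⟩ := hψ
  have hinv := h2.invOn_invFunOn
  have hmaps : MapsTo (Function.invFunOn φ W) (ball 0 1) W := h2.surjOn.mapsTo_invFunOn
  set σ : ℂ → ℂ := Function.invFunOn φ W with hσ
  have hl : ∀ z ∈ W, σ (φ z) = z := fun z hz => hinv.1 hz
  have hr : ∀ w ∈ ball (0 : ℂ) 1, φ (σ w) = w := fun w hw => hinv.2 hw
  have hσd : ∀ w ∈ ball (0 : ℂ) 1, HasDerivAt σ (deriv φ (σ w))⁻¹ w := by
    intro w hw
    have hz : σ w ∈ W := hmaps hw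
    have hs : HasStrictDerivAt φ (deriv φ (σ w)) (σ w) :=
      (h1.analyticAt (hW.mem_nhds hz)).hasStrictDerivAt
    have h5 : ∀ᶠ x in 𝓝 (σ w), σ (φ x) = x := by
      filter_upwards [hW.mem_nhds hz] with x hx using hl x hx
    have h6 := hs.to_local_left_inverse (h3 _ hz) h5
    rw [hr w hw] at h6
    exact h6.hasDerivAt
  have h0 : (0 : ℂ) ∈ ball (0 : ℂ) 1 := mem_ball_self one_pos
  have hσ0 : σ 0 = p := by
    have := hl p hp
    rwa [h4] at this
  have hg : DifferentiableOn ℂ (fun w => ψ (σ w)) (ball 0 1) := by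
    intro w hw
    have h5 := (g1.differentiableAt (hW.mem_nhds (hmaps hw))).comp w (hσd w hw).differentiableAt
    exact h5.differentiableWithinAt
  have hg0 : (fun w => ψ (σ w)) 0 = 0 := by
    show ψ (σ 0) = 0
    rw [hσ0, g4]
  have hmg : MapsTo (fun w => ψ (σ w)) (ball 0 1) (closedBall ((fun w => ψ (σ w)) 0) 1) := by
    rw [hg0]
    intro w hw
    exact ball_subset_closedBall (g2.mapsTo (hmaps hw))
  have hdg : dslope (fun w => ψ (σ w)) 0 0 = 1 := by
    rw [dslope_same]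
    have h5 : HasDerivAt (fun w => ψ (σ w)) (deriv ψ (σ 0) * (deriv φ (σ 0))⁻¹) 0 :=
      (g1.differentiableAt (hW.mem_nhds (hmaps h0))).hasDerivAt.comp (0 : ℂ) (hσd 0 h0)
    rw [h5.deriv, hσ0, hd, mul_inv_cancel₀ (h3 p hp)]
  have haff := affine_of_mapsTo_ball_of_norm_dslope_eq_div hg hmg h0 (by rw [hdg]; simp)
  intro z hz
  have h5 := haff (h2.mapsTo hz)
  simp only [hg0, hdg, hl z hz] at h5
  rw [h5]
  simp

theorem conj_rf (m : ℝ) (z : ℂ) : conj (rf m z) = 2 * (m : ℂ) - z := by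
  apply Complex.ext
  · simp [rf]
  · simp [rf]

theorem rf_eq (m : ℝ) (z : ℂ) : rf m z = conj (2 * (m : ℂ) - z) := by
  rw [← conj_rf, Complex.conj_conj]

/-- the part of the domain left of the line -/
theorem mem_left {G : Set ℂ} {m : ℝ} {z : ℂ} : (z ∈ Wd G m ∧ z.re < m) ↔ (z ∈ G ∧ z.re < m) := by
  constructor
  · rintro ⟨(h | h) | h, h2⟩
    · exact ⟨h.2, h2⟩
    · exact absurd h.1 (not_lt.2 h2.le)
    · obtain ⟨y, hy, hG⟩ := h
      exact ⟨hG ⟨h2, hy⟩, h2⟩
  · rintro ⟨h, h2⟩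
    exact ⟨Or.inl (Or.inl ⟨h2, h⟩), h2⟩

theorem left_preconnected {G : Set ℂ} {m c : ℝ} (hG : LD G) (hc : 0 < c) (hs : HS m c ⊆ G) :
    IsPreconnected {z : ℂ | z ∈ G ∧ z.re < m} := by
  have hreal : ∀ x : ℝ, x < m → (x : ℂ) ∈ {z : ℂ | z ∈ G ∧ z.re < m} := by
    intro x hx
    refine ⟨hs ⟨by simpa using hx, by simpa using hc⟩, by simpa using hx⟩
  refine isPreconnected_of_forall ((m - 1 : ℝ) : ℂ) fun y hy => ?_
  refine ⟨segment ℝ ((m - 1 : ℝ) : ℂ) (y.re : ℂ) ∪ segment ℝ (y.re : ℂ) y, ?_,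
    Or.inl (left_mem_segment _ _ _), Or.inr (right_mem_segment _ _ _),
    IsPreconnected.union (y.re : ℂ) (right_mem_segment _ _ _) (left_mem_segment _ _ _)
      (convex_segment _ _).isPreconnected (convex_segment _ _).isPreconnected⟩
  rintro w (hw | hw)
  · obtain ⟨a, b, ha, hb, hab, rfl⟩ := hw
    have h1 : a • ((m - 1 : ℝ) : ℂ) + b • (y.re : ℂ) = ((a * (m - 1) + b * y.re : ℝ) : ℂ) := by
      simp
    rw [h1]
    apply hreal
    have h2 : y.re < m := hy.2
    rcases ha.eq_or_lt with ha0 | ha0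
    · rw [← ha0] at hab ⊢
      have hb1 : b = 1 := by linarith
      rw [hb1]
      linarith
    · have h3 : b * y.re ≤ b * m := mul_le_mul_of_nonneg_left h2.le hb
      have h4 : a * (m - 1) < a * m := mul_lt_mul_of_pos_left (by linarith) ha0
      have h5 : a * m + b * m = m := by rw [← add_mul, hab, one_mul]
      linarith
  · obtain ⟨a, b, ha, hb, hab, rfl⟩ := hw
    have hre : (a • (y.re : ℂ) + b • y).re = y.re := by
      simp only [Complex.add_re, Complex.real_smul, Complex.mul_re, Complex.ofReal_re,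
        Complex.ofReal_im, zero_mul, sub_zero]
      rw [← add_mul, hab, one_mul]
    have him : (a • (y.re : ℂ) + b • y).im = b * y.im := by
      simp
    refine ⟨hG.2 y hy.1 _ hre.le ?_, by rw [hre]; exact hy.2⟩
    rw [him, abs_mul, abs_of_nonneg hb]
    exact mul_le_of_le_one_left (abs_nonneg _) (by linarith)

/-- JOB SY. -/
theorem t_SY (hWD : S_WD) (hSYC : S_SYC) : S_SY := by
  intro G m c M hG hc hs hM
  obtain ⟨hD, hstrip, hsym, _⟩ := hWD G m c M hG hc hs hM
  have hmW : ((m : ℝ) : ℂ) ∈ Wd G m := hstrip _ (by simpa using hc)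
  obtain ⟨φ, hRM, hd1, hd2, hconj⟩ := hSYC (Wd G m) m hD (fun z hz => (hsym z hz).1) hmW
  have hW : IsOpen (Wd G m) := hD.1
  have hflip : ∀ z ∈ Wd G m, 2 * (m : ℂ) - z ∈ Wd G m := by
    intro z hz
    rw [← conj_rf]
    exact (hsym _ (hsym z hz).2).1
  obtain ⟨h1, h2, h3, h4⟩ := id hRM
  have hderiv : ∀ z ∈ Wd G m,
      HasDerivAt (fun z => -φ (2 * (m : ℂ) - z)) (deriv φ (2 * (m : ℂ) - z)) z := by
    intro z hz
    have h5 := (h1.differentiableAt (hW.mem_nhds (hflip z hz))).hasDerivAt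
    have h6 : HasDerivAt (fun z : ℂ => 2 * (m : ℂ) - z) (-1) z := by
      simpa using (hasDerivAt_id z).const_sub (2 * (m : ℂ))
    have h7 : HasDerivAt (fun z => -φ (2 * (m : ℂ) - z)) (-(deriv φ (2 * (m : ℂ) - z) * (-1))) z :=
      (h5.comp z h6).neg
    have e1 : -(deriv φ (2 * (m : ℂ) - z) * (-1)) = deriv φ (2 * (m : ℂ) - z) := by ring
    rwa [e1] at h7
  have hψ : RM (Wd G m) m (fun z => -φ (2 * (m : ℂ) - z)) := by
    refine ⟨fun z hz => (hderiv z hz).differentiableAt.differentiableWithinAt, ⟨?_, ?_, ?_⟩, ?_, ?_⟩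
    · intro z hz
      have h5 := h2.mapsTo (hflip z hz)
      rw [mem_ball_zero_iff] at h5 ⊢
      rwa [norm_neg]
    · intro z hz w hw hzw
      have h5 : φ (2 * (m : ℂ) - z) = φ (2 * (m : ℂ) - w) := neg_injective hzw
      have h6 := h2.injOn (hflip z hz) (hflip w hw) h5
      exact sub_right_injective h6
    · intro w hw
      have hw' : -w ∈ ball (0 : ℂ) 1 := by
        rw [mem_ball_zero_iff] at hw ⊢
        rwa [norm_neg]
      obtain ⟨z, hz, hzw⟩ := h2.surjOn hw'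
      refine ⟨2 * (m : ℂ) - z, hflip z hz, ?_⟩
      show -φ (2 * (m : ℂ) - (2 * (m : ℂ) - z)) = w
      rw [sub_sub_cancel, hzw, neg_neg]
    · intro z hz
      rw [(hderiv z hz).deriv]
      exact h3 _ (hflip z hz)
    · show -φ (2 * (m : ℂ) - m) = 0
      have h5 : 2 * (m : ℂ) - m = m := by ring
      rw [h5, h4, neg_zero]
  have huniq : ∀ z ∈ Wd G m, -φ (2 * (m : ℂ) - z) = φ z := by
    refine rm_unique hW hmW hRM hψ ?_
    rw [(hderiv _ hmW).deriv]
    have h5 : 2 * (m : ℂ) - m = m := by ring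
    rw [h5]
  have hrf : ∀ z ∈ Wd G m, φ (rf m z) = -conj (φ z) := by
    intro z hz
    rw [rf_eq, hconj _ (hflip z hz), ← huniq z hz, map_neg, neg_neg]
  refine ⟨φ, hRM, hconj, hrf, ?_⟩
  -- the sign of the real part
  have hne : ∀ z ∈ Wd G m, z.re < m → (φ z).re ≠ 0 := by
    intro z hz hzm h0
    have h5 : φ (rf m z) = φ z := by
      rw [hrf z hz]
      apply Complex.ext
      · simp [h0]
      · simp
    have h6 := h2.injOn (hsym z hz).2 hz h5
    have h7 := congrArg Complex.re h6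
    simp only [rf] at h7
    linarith
  -- a negative value
  have hf : HasDerivAt (fun x : ℝ => (φ (x : ℂ)).re) (deriv φ m).re m :=
    (h1.differentiableAt (hW.mem_nhds hmW)).hasDerivAt.real_of_complex
  have hslope := hasDerivAt_iff_tendsto_slope.1 hf
  have hpos : ∀ᶠ x in 𝓝[≠] m, 0 < slope (fun x : ℝ => (φ (x : ℂ)).re) m x :=
    hslope.eventually (lt_mem_nhds hd1)
  have hpos' : ∀ᶠ x in 𝓝[<] m, 0 < slope (fun x : ℝ => (φ (x : ℂ)).re) m x :=
    hpos.filter_mono (nhdsWithin_mono _ (fun x hx => ne_of_lt hx))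
  obtain ⟨x, hx1, hx2⟩ := (hpos'.and self_mem_nhdsWithin).exists
  have hxm : x < m := hx2
  have hxneg : (φ (x : ℂ)).re < 0 := by
    rw [slope_def_field, h4] at hx1
    simp only [Complex.zero_re, sub_zero] at hx1
    by_contra hcon
    push Not at hcon
    have : (φ (x : ℂ)).re / (x - m) ≤ 0 := div_nonpos_of_nonneg_of_nonpos hcon (by linarith)
    linarith
  have hpre := left_preconnected hG hc hs
  have hcont : ContinuousOn (fun z => (φ z).re) {z : ℂ | z ∈ G ∧ z.re < m} := by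
    refine Complex.continuous_re.comp_continuousOn (h1.continuousOn.mono ?_)
    intro z hz
    exact (mem_left.2 hz).1
  have himg := hpre.image _ hcont
  intro z hz hzm
  by_contra hcon
  push Not at hcon
  have hzS : z ∈ {z : ℂ | z ∈ G ∧ z.re < m} := mem_left.1 ⟨hz, hzm⟩
  have hxS : (x : ℂ) ∈ {z : ℂ | z ∈ G ∧ z.re < m} :=
    ⟨hs ⟨by simpa using hxm, by simpa using hc⟩, by simpa using hxm⟩
  have h0 : (0 : ℝ) ∈ (fun z => (φ z).re) '' {z : ℂ | z ∈ G ∧ z.re < m} :=
    himg.ordConnected.out (mem_image_of_mem _ hxS) (mem_image_of_mem _ hzS) ⟨hxneg.le, hcon⟩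
  obtain ⟨w, hw, hw0⟩ := h0
  exact hne w (mem_left.2 hw).1 hw.2 hw0

end Pool.Agent.Q184.HM
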